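import Pool.Agent.helper43.NS.E2
import Pool.Agent.helper7.NO.F2

open Finset Filter

namespace Pool.Agent.helper43.NS

/-- the lower part with `log n`, for the exponent `α log 2 - ε` -/
theorem lower_final (α : ℝ) (h1 : 1 < α) (hα : α * (1 + Real.log 2 - Real.log α) = 1)
    (ε : ℝ) (hε : 0 < ε) : ∃ c : ℝ, 0 < c ∧ ∃ X : ℕ, ∀ x : ℕ, X ≤ x →
    ∀ B : Finset ℕ, (∀ n ∈ B, 2 ≤ n ∧ n ≤ x ∧
      (∀ m ∈ Ico 1 n, (m.divisors.card : ℝ) + m - n < Real.log n ^ (α * Real.log 2 - ε))) →
    (B.card : ℝ) ≤ x * Real.exp (-(Real.log x ^ c)) := by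
  obtain ⟨α₀, -, -, huniq, hlo, hhi⟩ := Pool.Agent.helper96.NO.exists_alpha
  rw [← huniq α h1 hα] at hlo hhi
  clear huniq α₀
  have l2a := Real.log_two_gt_d9
  have l2b := Real.log_two_lt_d9
  have hα4 : 4 < α := by
    by_contra h
    push Not at h
    nlinarith
  have hα0 : 0 < α := by linarith
  have l23 : Real.log 2 < Real.log 3 := Real.log_lt_log (by norm_num) (by norm_num)
  set ε' : ℝ := min ε (1 / 2) with hε'def
  have hε'0 : 0 < ε' := lt_min hε (by norm_num)
  have hε'1 : ε' ≤ 1 / 2 := min_le_right _ _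
  have hε'2 : ε' ≤ ε := min_le_left _ _
  set t : ℝ := 2 * ε' / (Real.log 2 + Real.log 3) with htdef
  have hs0 : 0 < Real.log 2 + Real.log 3 := by linarith
  have ht0 : 0 < t := by positivity
  have ht_eq : t * (Real.log 2 + Real.log 3) = 2 * ε' := by
    rw [htdef]; field_simp
  have ht1 : t ≤ 1 := by
    by_contra h
    push Not at h
    nlinarith
  have ht2 : t * Real.log 2 < ε' := by nlinarith
  have ht3 : ε' < t * Real.log 3 := by nlinarith
  set y : ℝ := α - t with hydef
  have hy3 : 3 < y := by rw [hydef]; linarith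
  have hy0 : 0 < y := by linarith
  have hly : Real.log 3 ≤ Real.log y := Real.log_le_log (by norm_num) hy3.le
  set β : ℝ := α * Real.log 2 with hβdef
  have hu2 : β - ε' < y * Real.log 2 := by
    rw [hydef, hβdef]; nlinarith
  have hu1 : y * Real.log y - y + 1 < β - ε' := by
    have hle : Real.log (y / α) ≤ y / α - 1 := Real.log_le_sub_one_of_pos (by positivity)
    rw [Real.log_div hy0.ne' hα0.ne'] at hle
    have hle2 : α * (Real.log y - Real.log α) ≤ y - α := by
      have := mul_le_mul_of_nonneg_left hle hα0.le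
      have he : α * (y / α - 1) = y - α := by field_simp
      rwa [he] at this
    have hty : t * Real.log 3 ≤ t * Real.log y := mul_le_mul_of_nonneg_left hly ht0.le
    have hyl : y * Real.log y = α * Real.log y - t * Real.log y := by rw [hydef]; ring
    have hαe : α * Real.log α = α + α * Real.log 2 - 1 := by linarith
    rw [hyl, hβdef]
    nlinarith
  obtain ⟨c, hc, X₁, hX₁⟩ := lower_strong y (β - ε') (by linarith) hu1 hu2
  have htend : Tendsto (fun x : ℕ => Real.log (x : ℝ)) atTop atTop :=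
    Real.tendsto_log_atTop.comp tendsto_natCast_atTop_atTop
  have e1 : ∀ᶠ x : ℕ in atTop, Real.log 2 ^ (β - ε) ≤ Real.log (x : ℝ) ^ (β - ε') :=
    ((tendsto_rpow_atTop (show 0 < β - ε' by linarith)).comp htend).eventually_ge_atTop _
  obtain ⟨X₂, hX₂⟩ := eventually_atTop.1 e1
  refine ⟨c, hc, max X₁ X₂, fun x hx B hB => ?_⟩
  refine hX₁ x (le_of_max_le_left hx) B (fun n hn => ?_)
  obtain ⟨hn2, hnx, hm⟩ := hB n hn
  refine ⟨by omega, hnx, fun m hmn => (hm m hmn).le.trans ?_⟩
  have g2 := hX₂ x (le_of_max_le_right hx)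
  rcases Nat.lt_or_ge n 3 with h3 | h3
  · have hn : n = 2 := by omega
    rw [hn]
    exact_mod_cast g2
  · have hn3 : (3 : ℝ) ≤ n := by exact_mod_cast h3
    have hlogn : 1 ≤ Real.log n := by
      rw [Real.le_log_iff_exp_le (by linarith)]
      have := Real.exp_one_lt_d9
      linarith
    have hle : Real.log n ≤ Real.log x := Real.log_le_log (by linarith) (by exact_mod_cast hnx)
    calc Real.log n ^ (β - ε) ≤ Real.log n ^ (β - ε') :=
          Real.rpow_le_rpow_of_exponent_le hlogn (by linarith)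
      _ ≤ Real.log x ^ (β - ε') := Real.rpow_le_rpow (by linarith) hle (by linarith)

end Pool.Agent.helper43.NS
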