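import Pool.Agent.helper43.NO.Defs

/-!
Strong form of the lower bound for the normal order of `max_{m<n} (τ(m)+m-n)`: definitions.
-/

open Finset

namespace Pool.Agent.helper43.NS

/-- the function with coefficients `c` on the subsets of `P` -/
noncomputable def Gf (P : Finset ℕ) (c : Finset ℕ → ℝ) (m : ℕ) : ℝ :=
  ∑ T ∈ P.powerset, if (∏ p ∈ T, p) ∣ m then c T else 0

/-- its mean value -/
noncomputable def Mn (P : Finset ℕ) (c : Finset ℕ → ℝ) : ℝ :=
  ∑ T ∈ P.powerset, c T / ((∏ p ∈ T, p : ℕ) : ℝ)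

/-- coefficients of the truncated indicator of `om P m = a` -/
noncomputable def ca (a D : ℕ) (T : Finset ℕ) : ℝ :=
  if T.card ≤ D then (-1) ^ (T.card - a) * (T.card.choose a : ℝ) else 0

/-- convolution of coefficients: `Gf P c * Gf P c' = Gf P (conv c c')` -/
noncomputable def conv (c c' : Finset ℕ → ℝ) (U : Finset ℕ) : ℝ :=
  ∑ T ∈ U.powerset, ∑ T' ∈ U.powerset, if T ∪ T' = U then c T * c' T' else 0

/-- proportion of the residues `m` modulo `∏ P` with `om P m = a` -/
noncomputable def frac (P : Finset ℕ) (a : ℕ) : ℝ :=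
  (((Icc 1 (∏ p ∈ P, p)).filter (fun m => NO.om P m = a)).card : ℝ) / ((∏ p ∈ P, p : ℕ) : ℝ)

/-- the centred coefficients: `Gf P (psi P c) m = Mn P c - Gf P c m` -/
noncomputable def psi (P : Finset ℕ) (c : Finset ℕ → ℝ) (T : Finset ℕ) : ℝ :=
  (if T = ∅ then Mn P c else 0) - c T

end Pool.Agent.helper43.NS
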