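import Pool.Agent.helper43.NO.C3
import Pool.Agent.helper56.NS.H2
import Pool.Agent.helper28.NS.W

open Finset Filter

namespace Pool.Agent.helper43.NS

open Pool.Agent.helper94.DivMax Pool.Agent.helper43.NO Pool.Agent.helper71.NO

lemma ev_log (A D θ θ' : ℝ) (hA : 0 ≤ A) (hD : 0 ≤ D) (h : θ < θ') :
    ∀ᶠ l : ℝ in atTop, (A * Real.log l + D) * l ^ θ ≤ l ^ θ' := by
  set e : ℝ := (θ' - θ) / 2 with he
  have he0 : 0 < e := by rw [he]; linarith
  have hlo : ∀ᶠ l : ℝ in atTop, ‖Real.log l‖ ≤ 1 * ‖l ^ e‖ :=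
    (isLittleO_log_rpow_atTop he0).bound one_pos
  have h1 := ev_le (show θ + e < θ' by rw [he]; linarith) (show (0:ℝ) < A + D + 1 by positivity)
  filter_upwards [hlo, h1, eventually_ge_atTop 1] with l h2 h3 h4
  have hl0 : 0 < l := by linarith
  have hlog : 0 ≤ Real.log l := Real.log_nonneg h4
  have hle : 0 < l ^ e := by positivity
  rw [Real.norm_of_nonneg hlog, Real.norm_of_nonneg hle.le, one_mul] at h2
  have hle1 : 1 ≤ l ^ e := Real.one_le_rpow h4 he0.le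
  have h6 : A * Real.log l + D ≤ (A + D + 1) * l ^ e := by
    have h7 : A * Real.log l ≤ A * l ^ e := by gcongr
    have h8 : D * 1 ≤ D * l ^ e := by gcongr
    linarith
  calc (A * Real.log l + D) * l ^ θ ≤ ((A + D + 1) * l ^ e) * l ^ θ := by gcongr
    _ = (A + D + 1) * (l ^ θ * l ^ e) := by ring
    _ = (A + D + 1) * l ^ (θ + e) := by rw [← Real.rpow_add hl0]
    _ ≤ l ^ θ' := h3

/-- numerical part: the bound of `fail_count` in terms of `l = log x` -/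
lemma numerics (P : Finset ℕ) (x z P0 D r L : ℕ) (fr κ η C0 l Λ W1 W2 : ℝ)
    (hxe : (x : ℝ) = Real.exp l) (hfr : 0 < fr) (hΛ0 : 0 ≤ Λ) (hC0 : 0 ≤ C0)
    (hs2 : ∑ p ∈ P, 1 / (p : ℝ) ≤ Λ + C0)
    (hfr1 : Real.exp (-(κ * Λ)) ≤ fr) (hL : 8 * Real.exp 1 ≤ L * fr)
    (hr : 1 ≤ r) (hz : (z : ℝ) ≤ Real.exp (l ^ (1 - η))) (hl : 0 ≤ l ^ (1 - η))
    (hP0 : Real.exp (l ^ (η / 3)) ≤ P0)
    (hDle : (D : ℝ) ≤ (24 + κ) * Λ + 24 * C0 + 2)
    (hW1 : (r : ℝ) * (2 * (κ + 9) * Λ + 2 * (3 + 9 * C0)) +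
      4 * ((24 + κ) * Λ + 24 * C0 + 2) * r * l ^ (1 - η) ≤ W1)
    (hW2 : (r : ℝ) * ((2 * (κ + 9) + 1) * Λ + (2 * (3 + 9 * C0) + C0 + 8)) - l ^ (η / 3) ≤ -W2) :
    x * (8 / (L * fr)) ^ r + (2 / fr) ^ (2 * r) *
      (((z : ℝ) ^ (2 * D * (2 * r)) + x * (2 * r : ℝ) ^ 2 * 9 ^ 2 * (∑ p ∈ P, 1 / (p : ℝ)) / P0) *
        (4 * pr P 9) ^ (2 * r)) ≤
      x * Real.exp (-(r : ℝ)) + (Real.exp W1 + x * Real.exp (-W2)) := by
  set s := ∑ p ∈ P, 1 / (p : ℝ) with hs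
  have hx0 : (0 : ℝ) < x := by rw [hxe]; exact Real.exp_pos _
  have hr1 : (1 : ℝ) ≤ r := by exact_mod_cast hr
  have hpr : pr P 9 ≤ Real.exp (9 * s) := pr_le P 9 (by norm_num)
  have hpr0 : 0 ≤ pr P 9 := by
    unfold pr; exact prod_nonneg (fun p _ => by positivity)
  have hP0p : (0 : ℝ) < P0 := lt_of_lt_of_le (Real.exp_pos _) hP0
  -- first term
  have h1 : x * (8 / (L * fr)) ^ r ≤ x * Real.exp (-(r : ℝ)) := by
    have hLf : 0 < L * fr := lt_of_lt_of_le (by positivity) hL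
    have h2 : 8 / (L * fr) ≤ Real.exp (-1) := by
      rw [div_le_iff₀ hLf]
      have h3 : Real.exp (-1) * (8 * Real.exp 1) ≤ Real.exp (-1) * (L * fr) := by gcongr
      have h4 : Real.exp (-1) * (8 * Real.exp 1) = 8 := by
        have : Real.exp (-1) * Real.exp 1 = 1 := by rw [← Real.exp_add]; norm_num
        calc Real.exp (-1) * (8 * Real.exp 1) = 8 * (Real.exp (-1) * Real.exp 1) := by ring
          _ = 8 := by rw [this, mul_one]
      linarith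
    have h5 : (8 / (L * fr)) ^ r ≤ Real.exp (-(r : ℝ)) := by
      calc (8 / (L * fr)) ^ r ≤ Real.exp (-1) ^ r := by gcongr
        _ = Real.exp (-(r : ℝ)) := by rw [← Real.exp_nat_mul]; ring_nf
    gcongr
  -- the common factor
  have h8 : (8 : ℝ) ≤ Real.exp 3 := by
    have h6 : Real.exp 3 = Real.exp 1 * Real.exp 1 * Real.exp 1 := by
      rw [← Real.exp_add, ← Real.exp_add]; norm_num
    have h7 := Real.exp_one_gt_d9
    rw [h6]; nlinarith
  have h2 : (2 / fr) ^ (2 * r) * (4 * pr P 9) ^ (2 * r) ≤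
      Real.exp ((r : ℝ) * (2 * (κ + 9) * Λ + 2 * (3 + 9 * C0))) := by
    rw [← mul_pow]
    have h3 : 2 / fr * (4 * pr P 9) ≤ Real.exp ((κ + 9) * Λ + (3 + 9 * C0)) := by
      have h4 : 1 / fr ≤ Real.exp (κ * Λ) := by
        rw [div_le_iff₀ hfr]
        calc (1 : ℝ) = Real.exp (κ * Λ) * Real.exp (-(κ * Λ)) := by
              rw [← Real.exp_add, add_neg_cancel, Real.exp_zero]
          _ ≤ Real.exp (κ * Λ) * fr := by gcongr
      have h5 : pr P 9 ≤ Real.exp (9 * (Λ + C0)) := by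
        refine hpr.trans ?_
        rw [Real.exp_le_exp]; linarith
      calc 2 / fr * (4 * pr P 9) = 8 * (1 / fr) * pr P 9 := by ring
        _ ≤ Real.exp 3 * Real.exp (κ * Λ) * Real.exp (9 * (Λ + C0)) := by gcongr
        _ = _ := by rw [← Real.exp_add, ← Real.exp_add]; ring_nf
    calc (2 / fr * (4 * pr P 9)) ^ (2 * r) ≤ (Real.exp ((κ + 9) * Λ + (3 + 9 * C0))) ^ (2 * r) := by
          have : 0 ≤ 2 / fr * (4 * pr P 9) := by positivity
          gcongr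
      _ = _ := by rw [← Real.exp_nat_mul]; push_cast; ring_nf
  have h3 : (z : ℝ) ^ (2 * D * (2 * r)) ≤
      Real.exp (4 * ((24 + κ) * Λ + 24 * C0 + 2) * r * l ^ (1 - η)) := by
    calc (z : ℝ) ^ (2 * D * (2 * r)) ≤ Real.exp (l ^ (1 - η)) ^ (2 * D * (2 * r)) := by gcongr
      _ = Real.exp (4 * D * r * l ^ (1 - η)) := by
          rw [← Real.exp_nat_mul]; push_cast; ring_nf
      _ ≤ _ := by
          rw [Real.exp_le_exp]
          gcongr
  have h4 : x * (2 * r : ℝ) ^ 2 * 9 ^ 2 * s / P0 ≤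
      x * Real.exp (6 + 2 * r + (Λ + C0) - l ^ (η / 3)) := by
    rw [div_le_iff₀ hP0p]
    have h5 : x * Real.exp (6 + 2 * r + (Λ + C0) - l ^ (η / 3)) * Real.exp (l ^ (η / 3)) ≤
        x * Real.exp (6 + 2 * r + (Λ + C0) - l ^ (η / 3)) * P0 := by gcongr
    refine le_trans ?_ h5
    have h6 : x * Real.exp (6 + 2 * r + (Λ + C0) - l ^ (η / 3)) * Real.exp (l ^ (η / 3)) =
        x * (Real.exp 6 * (Real.exp r * Real.exp r) * Real.exp (Λ + C0)) := by
      rw [mul_assoc, ← Real.exp_add, ← Real.exp_add, ← Real.exp_add, ← Real.exp_add]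
      ring_nf
    rw [h6]
    have h7 : (r : ℝ) ≤ Real.exp r := by
      have := Real.add_one_le_exp (r : ℝ); linarith
    have h9 : s ≤ Real.exp (Λ + C0) := by
      have := Real.add_one_le_exp (Λ + C0); linarith
    have h10 : (324 : ℝ) ≤ Real.exp 6 := by
      have h11 : Real.exp 6 = Real.exp 3 * Real.exp 3 := by rw [← Real.exp_add]; norm_num
      have h12 : (18 : ℝ) ≤ Real.exp 3 := by
        have h6 : Real.exp 3 = Real.exp 1 * Real.exp 1 * Real.exp 1 := by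
          rw [← Real.exp_add, ← Real.exp_add]; norm_num
        have h7 := Real.exp_one_gt_d9
        have h13 : (2.7 : ℝ) < Real.exp 1 := by linarith
        have h14 : (2.7 : ℝ) * 2.7 ≤ Real.exp 1 * Real.exp 1 := by gcongr
        have h15 : (2.7 : ℝ) * 2.7 * 2.7 ≤ Real.exp 1 * Real.exp 1 * Real.exp 1 := by gcongr
        rw [h6]; linarith
      rw [h11]; nlinarith
    calc x * (2 * r : ℝ) ^ 2 * 9 ^ 2 * s = x * (324 * ((r : ℝ) * r) * s) := by ring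
      _ ≤ _ := by gcongr
  have h5 : (2 / fr) ^ (2 * r) *
      (((z : ℝ) ^ (2 * D * (2 * r)) + x * (2 * r : ℝ) ^ 2 * 9 ^ 2 * s / P0) *
        (4 * pr P 9) ^ (2 * r)) =
      ((2 / fr) ^ (2 * r) * (4 * pr P 9) ^ (2 * r)) *
      ((z : ℝ) ^ (2 * D * (2 * r)) + x * (2 * r : ℝ) ^ 2 * 9 ^ 2 * s / P0) := by ring
  rw [h5]
  have h6 : ((2 / fr) ^ (2 * r) * (4 * pr P 9) ^ (2 * r)) *
      ((z : ℝ) ^ (2 * D * (2 * r)) + x * (2 * r : ℝ) ^ 2 * 9 ^ 2 * s / P0) ≤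
      Real.exp ((r : ℝ) * (2 * (κ + 9) * Λ + 2 * (3 + 9 * C0))) *
      (Real.exp (4 * ((24 + κ) * Λ + 24 * C0 + 2) * r * l ^ (1 - η)) +
        x * Real.exp (6 + 2 * r + (Λ + C0) - l ^ (η / 3))) := by
    have h7 : 0 ≤ (z : ℝ) ^ (2 * D * (2 * r)) + x * (2 * r : ℝ) ^ 2 * 9 ^ 2 * s / P0 := by
      positivity
    gcongr
  have h7 : Real.exp ((r : ℝ) * (2 * (κ + 9) * Λ + 2 * (3 + 9 * C0))) *
      (Real.exp (4 * ((24 + κ) * Λ + 24 * C0 + 2) * r * l ^ (1 - η)) +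
        x * Real.exp (6 + 2 * r + (Λ + C0) - l ^ (η / 3))) ≤
      Real.exp W1 + x * Real.exp (-W2) := by
    rw [mul_add]
    apply add_le_add
    · rw [← Real.exp_add, Real.exp_le_exp]
      exact hW1
    · have h8 : Real.exp ((r : ℝ) * (2 * (κ + 9) * Λ + 2 * (3 + 9 * C0))) *
          (x * Real.exp (6 + 2 * r + (Λ + C0) - l ^ (η / 3))) =
          x * Real.exp ((r : ℝ) * (2 * (κ + 9) * Λ + 2 * (3 + 9 * C0)) +
            (6 + 2 * r + (Λ + C0) - l ^ (η / 3))) := by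
        rw [Real.exp_add]; ring
      rw [h8]
      have h9 : (r : ℝ) * (2 * (κ + 9) * Λ + 2 * (3 + 9 * C0)) +
            (6 + 2 * r + (Λ + C0) - l ^ (η / 3)) ≤ -W2 := by
        have h10 : 6 + (Λ + C0) ≤ r * (6 + (Λ + C0)) := by
          have : 0 ≤ 6 + (Λ + C0) := by linarith
          nlinarith
        nlinarith
      gcongr
  linarith

end Pool.Agent.helper43.NS
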