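import Pool.Agent.helper43.NS.E

open Finset Filter

namespace Pool.Agent.helper43.NS

open Pool.Agent.helper94.DivMax Pool.Agent.helper43.NO Pool.Agent.helper71.NO
open Pool.Agent.helper56.NS Pool.Agent.helper28.NS


lemma frac_nonneg (P : Finset ℕ) (a : ℕ) : 0 ≤ frac P a := by
  unfold frac
  exact div_nonneg (Nat.cast_nonneg _) (Nat.cast_nonneg _)

/-- lower bound outside a very small exceptional set -/
theorem lower_strong (y u : ℝ) (hy : 1 < y) (h1 : y * Real.log y - y + 1 < u)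
    (h2 : u < y * Real.log 2) : ∃ c : ℝ, 0 < c ∧ ∃ X : ℕ, ∀ x : ℕ, X ≤ x →
    ∀ B : Finset ℕ, (∀ n ∈ B, 1 ≤ n ∧ n ≤ x ∧ ∀ m ∈ Ico 1 n,
      (m.divisors.card : ℝ) + m - n ≤ Real.log x ^ u) →
    (B.card : ℝ) ≤ x * Real.exp (-(Real.log x ^ c)) := by
  obtain ⟨κ, η, h, t, hκ0, hκu, hη, hη2, hh, ht, ht1, hyt, huh, c, hc, hE1, hE3, hE4⟩ :=
    params y u hy h1 h2
  obtain ⟨Cm, hCm⟩ := SUB.mertens_upper
  set C0 : ℝ := max Cm 0 with hC0
  have hC00 : 0 ≤ C0 := le_max_right _ _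
  have hl2 : 0 < Real.log 2 := Real.log_pos (by norm_num)
  have hu0 : 0 < u := by linarith
  have hyh : 0 < y - h := by
    by_contra hcon
    push Not at hcon
    have hneg : (y - h) * Real.log 2 ≤ 0 := mul_nonpos_of_nonpos_of_nonneg hcon hl2.le
    linarith
  set u2 : ℝ := (y - h) * Real.log 2 with hu2
  set cc : ℝ := min (min (c / 4) (η / 6)) (κ / 2) with hcc
  have hcc0 : 0 < cc := by rw [hcc]; apply lt_min (lt_min _ _) _ <;> linarith
  have hcc1 : cc ≤ c / 4 := by rw [hcc]; exact (min_le_left _ _).trans (min_le_left _ _)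
  have hcc2 : cc ≤ η / 6 := by rw [hcc]; exact (min_le_left _ _).trans (min_le_right _ _)
  have hcc3 : cc ≤ κ / 2 := by rw [hcc]; exact min_le_right _ _
  set A1 : ℝ := 2 * (κ + 9) with hA1
  set A2 : ℝ := 2 * (3 + 9 * C0) with hA2
  have hA10 : 0 ≤ A1 := by rw [hA1]; linarith
  have hA20 : 0 ≤ A2 := by rw [hA2]; linarith
  -- eventual facts
  have e2 := SS_lower (1 - η) η hη (by linarith)
  have e3 : ∀ᶠ l : ℝ in atTop, l ^ κ ≤ Real.exp (l ^ (η / 3)) := by
    have h3 : Tendsto (fun l : ℝ => l ^ (η / 3)) atTop atTop := tendsto_rpow_atTop (by positivity)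
    have h4 : ∀ᶠ r : ℝ in atTop, r ^ (κ * 3 / η) ≤ Real.exp r := by
      have h5 := (isLittleO_rpow_exp_atTop (κ * 3 / η)).bound one_pos
      filter_upwards [h5, eventually_ge_atTop 0] with r h6 h7
      rw [Real.norm_of_nonneg (by positivity), Real.norm_of_nonneg (Real.exp_pos _).le,
        one_mul] at h6
      exact h6
    filter_upwards [h3.eventually h4, eventually_gt_atTop 0] with l h5 h6
    have h7 : (l ^ (η / 3)) ^ (κ * 3 / η) = l ^ κ := by
      rw [← Real.rpow_mul h6.le]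
      congr 1
      field_simp
    rw [h7] at h5
    exact h5
  have e4 := ev_log (2 * A1 + 8 * (24 + κ)) (2 * A2 + 8 * (24 * C0 + 2)) (1 - η + cc) (1 - η / 2)
    (by positivity) (by positivity) (by linarith)
  have e4' : ∀ᶠ l : ℝ in atTop, 4 * l ^ (1 - η / 2) ≤ l ^ (1 : ℝ) :=
    ev_le (by linarith) (by norm_num)
  have e5 : ∀ᶠ l : ℝ in atTop, 2 ≤ l ^ κ := (tendsto_rpow_atTop hκ0).eventually_ge_atTop 2
  have e6 : ∀ᶠ l : ℝ in atTop, 3 * l ^ u ≤ l ^ u2 := ev_le huh (by norm_num)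
  have e8 : ∀ᶠ l : ℝ in atTop, l ^ κ ≤ Real.exp (l / 2) := by
    have h5 := (isLittleO_rpow_exp_pos_mul_atTop κ (show (0:ℝ) < 1 / 2 by norm_num)).bound one_pos
    filter_upwards [h5, eventually_ge_atTop 0] with r h6 h7
    rw [Real.norm_of_nonneg (by positivity), Real.norm_of_nonneg (Real.exp_pos _).le,
      one_mul] at h6
    rw [show r / 2 = 1 / 2 * r by ring]
    exact h6
  have e9 := ev_log (2 * (A1 + 1)) (2 * (A2 + C0 + 8)) cc (η / 4)
    (by positivity) (by positivity) (by linarith)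
  have e10 : ∀ᶠ l : ℝ in atTop, 2 * l ^ (η / 4) ≤ l ^ (η / 3) := ev_le (by linarith) (by norm_num)
  have e11 : ∀ᶠ l : ℝ in atTop, 2 * l ^ (cc / 2) ≤ l ^ cc := ev_le (by linarith) (by norm_num)
  have e12 : ∀ᶠ l : ℝ in atTop, 2 ≤ l ^ (cc / 2) :=
    (tendsto_rpow_atTop (by linarith)).eventually_ge_atTop 2
  have e13 : ∀ᶠ l : ℝ in atTop, 4 * l ^ (cc / 2) ≤ l ^ (η / 3) := ev_le (by linarith) (by norm_num)
  have e14 : ∀ᶠ l : ℝ in atTop, 4 * l ^ (cc / 2) ≤ l ^ (1 : ℝ) := ev_le (by linarith) (by norm_num)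
  -- for the level
  set c1 : ℝ := Real.exp (-(y - 1) ^ 2) / 2 with hc1
  have hc1p : 0 < c1 := by rw [hc1]; positivity
  have e15 := ev_log (1 / c1 * (y + h)) (1 / c1) 0 (c / 4) (by positivity) (by positivity)
    (by linarith)
  have e16 : ∀ᶠ l : ℝ in atTop, 2 * (Real.exp (y * C0) + 1) / Real.exp (-(y - 1) ^ 2) * l ^ (0:ℝ) ≤
      l ^ c := ev_le hc (by positivity)
  have e17 : ∀ᶠ l : ℝ in atTop, 8 * l ^ cc ≤ l ^ κ := ev_le (by linarith) (by norm_num)
  have e18 : ∀ᶠ l : ℝ in atTop, 64 * Real.exp 1 * l ^ (0 : ℝ) ≤ l ^ (c / 2) :=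
    ev_le (by linarith) (by positivity)
  have hall := ((((((((((((((((e2.and e3).and e4).and e4').and e5).and e6).and e8).and e9).and
    e10).and e11).and e12).and e13).and e14).and e15).and e16).and e17).and e18).and
    (eventually_gt_atTop (1 : ℝ))
  have htend : Tendsto (fun x : ℕ => Real.log (x : ℝ)) atTop atTop :=
    Real.tendsto_log_atTop.comp tendsto_natCast_atTop_atTop
  obtain ⟨X, hX⟩ := eventually_atTop.mp (htend.eventually hall)
  refine ⟨cc / 2, by positivity, max X 1, fun x hx B hB => ?_⟩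
  obtain ⟨⟨⟨⟨⟨⟨⟨⟨⟨⟨⟨⟨⟨⟨⟨⟨⟨f2, f3⟩, f4⟩, f4'⟩, f5⟩, f6⟩, f8⟩, f9⟩, f10⟩, f11⟩, f12⟩, f13⟩, f14⟩,
    f15⟩, f16⟩, f17⟩, f18⟩, f1'⟩ := hX x (le_of_max_le_left hx)
  rw [Real.rpow_one] at f4' f14
  rw [Real.rpow_zero, mul_one] at f15 f16 f18
  have hx1 : 1 ≤ x := le_of_max_le_right hx
  have hx0 : (0 : ℝ) < x := by exact_mod_cast hx1
  set l : ℝ := Real.log x with hl
  have hxe : (x : ℝ) = Real.exp l := by rw [hl, Real.exp_log hx0]
  have f1 : 1 ≤ l := f1'.le
  have hl0 : 0 < l := by linarith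
  set Λ : ℝ := Real.log l with hΛ
  have hΛp : 0 < Λ := Real.log_pos f1'
  have hΛ0 : 0 ≤ Λ := hΛp.le
  set K : ℕ := ⌊l ^ κ⌋₊ with hK
  set z0 : ℕ := ⌊Real.exp (l ^ (η / 3))⌋₊ with hz0
  set z : ℕ := ⌊Real.exp (l ^ (1 - η))⌋₊ with hz
  set P : Finset ℕ := PP z0 z with hP
  have hKz : K ≤ z0 := Nat.floor_mono f3
  have hlκ : (K : ℝ) ≤ l ^ κ := Nat.floor_le (by positivity)
  have hlκ' : l ^ κ / 2 ≤ K := by
    have := Nat.lt_floor_add_one (l ^ κ)
    rw [← hK] at this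
    linarith
  have hK1 : 1 ≤ K := by
    have h3 : (1 : ℝ) ≤ K := by linarith
    exact_mod_cast h3
  have hexphalf : Real.exp (l / 2) ≤ x := by
    rw [hxe, Real.exp_le_exp]; linarith
  have hKx : K ≤ x := by
    have h3 : (K : ℝ) ≤ x := by linarith
    exact_mod_cast h3
  have hzle : (z : ℝ) ≤ Real.exp (l ^ (1 - η)) := Nat.floor_le (Real.exp_pos _).le
  have hz2 : 2 ≤ z := by
    rw [hz]
    apply Nat.le_floor
    have h3 : (1 : ℝ) ≤ l ^ (1 - η) := Real.one_le_rpow f1 (by linarith)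
    have h4 : Real.exp 1 ≤ Real.exp (l ^ (1 - η)) := Real.exp_le_exp.mpr h3
    have h5 := Real.exp_one_gt_d9
    push_cast
    linarith
  have hP0le : Real.exp (l ^ (η / 3)) ≤ ((z0 + 1 : ℕ) : ℝ) := by
    have := (Nat.lt_floor_add_one (Real.exp (l ^ (η / 3)))).le
    rw [← hz0] at this
    push_cast
    exact this
  have hPP : ∀ p ∈ P, p.Prime ∧ K < p ∧ z0 + 1 ≤ p ∧ p ≤ z := by
    intro p hp
    rw [hP, mem_PP] at hp
    exact ⟨hp.1, by omega, by omega, hp.2.2⟩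
  have hPpr : ∀ p ∈ P, p.Prime := fun p hp => (hPP p hp).1
  have hs1 : (1 - 2 * η) * Λ ≤ ∑ p ∈ P, 1 / (p : ℝ) := by
    have h3 : (1 - η - η) * Real.log l ≤ ∑ p ∈ P, 1 / (p : ℝ) := f2
    have h4 : 1 - η - η = 1 - 2 * η := by ring
    rw [h4] at h3
    exact h3
  have hs2 : ∑ p ∈ P, 1 / (p : ℝ) ≤ Λ + C0 := by
    have h3 := hCm z hz2
    have h4 : ∑ p ∈ P, 1 / (p : ℝ) ≤ ∑ p ∈ (Finset.Icc 1 z).filter Nat.Prime, 1 / (p : ℝ) := by
      apply sum_le_sum_of_subset_of_nonneg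
      · intro p hp
        have h5 := hPP p hp
        rw [mem_filter, mem_Icc]
        exact ⟨⟨h5.1.one_lt.le, h5.2.2.2⟩, h5.1⟩
      · intro p _ _; positivity
    have h5 : Real.log (Real.log z) ≤ Λ := by
      have hz1 : (1 : ℝ) < z := by exact_mod_cast (by omega : 1 < z)
      have h6 : Real.log z ≤ l ^ (1 - η) := by
        rw [Real.log_le_iff_le_exp (by linarith)]
        exact hzle
      have h7 : l ^ (1 - η) ≤ l := by
        calc l ^ (1 - η) ≤ l ^ (1 : ℝ) := Real.rpow_le_rpow_of_exponent_le f1 (by linarith)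
          _ = l := Real.rpow_one l
      exact Real.log_le_log (Real.log_pos hz1) (by linarith)
    have h6 : Cm ≤ C0 := le_max_left _ _
    linarith
  have hexp : ∀ q : ℝ, Real.exp (q * Λ) = l ^ q := by
    intro q
    rw [Real.rpow_def_of_pos hl0, hΛ]; ring_nf
  have hexpn : ∀ q : ℝ, Real.exp (-(q * Λ)) = l ^ (-q) := by
    intro q
    rw [← hexp]; ring_nf
  -- the level
  obtain ⟨a, ha1, ha2, ha3⟩ := window P y κ η h t c Λ C0 hPpr hy hη hη2 ht ht1 hyt hC00 hΛ0 hh hs1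
    hs2 hE1 hE3 hE4 (by
      rw [hexpn]
      have h3 : Real.exp (-(y - 1) ^ 2) > 0 := Real.exp_pos _
      rw [div_le_iff₀ h3] at f16
      have h4 : l ^ (-c) * (2 * (Real.exp (y * C0) + 1)) ≤
          l ^ (-c) * (l ^ c * Real.exp (-(y - 1) ^ 2)) := by gcongr
      have h5 : l ^ (-c) * (l ^ c * Real.exp (-(y - 1) ^ 2)) = Real.exp (-(y - 1) ^ 2) := by
        rw [← mul_assoc, ← Real.rpow_add hl0, neg_add_cancel, Real.rpow_zero, one_mul]
      linarith)
  rw [← hc1] at ha3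
  have ha0 : 1 ≤ a := by
    have h3 : (0 : ℝ) < a := lt_of_lt_of_le (by positivity) ha1
    have h4 : 0 < a := by exact_mod_cast h3
    omega
  have hfr : l ^ (-(κ - 3 * c / 4)) ≤ frac P a := by
    have h3 : (y + h) * Λ + 1 ≤ c1 * l ^ (c / 4) := by
      have h4 : c1 * (1 / c1 * (y + h) * Λ + 1 / c1) ≤ c1 * l ^ (c / 4) := by gcongr
      have h5 : c1 * (1 / c1 * (y + h) * Λ + 1 / c1) = (y + h) * Λ + 1 := by field_simp
      linarith
    have h4 : 0 ≤ frac P a := frac_nonneg P a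
    have h5 : c1 * Real.exp (-((κ - c) * Λ)) ≤ c1 * l ^ (c / 4) * frac P a := by
      refine ha3.trans ?_
      gcongr
    rw [hexpn] at h5
    have h6 : l ^ (-(κ - c)) ≤ l ^ (c / 4) * frac P a := by
      rw [mul_assoc] at h5
      exact le_of_mul_le_mul_left h5 hc1p
    have h7 : l ^ (-(c / 4)) * l ^ (-(κ - c)) ≤ l ^ (-(c / 4)) * (l ^ (c / 4) * frac P a) := by
      gcongr
    rw [← mul_assoc, ← Real.rpow_add hl0, ← Real.rpow_add hl0, neg_add_cancel, Real.rpow_zero,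
      one_mul] at h7
    have h8 : -(c / 4) + -(κ - c) = -(κ - 3 * c / 4) := by ring
    rw [h8] at h7
    exact h7
  have hfrp : 0 < frac P a := lt_of_lt_of_le (by positivity) hfr
  have hfr2 : Real.exp (-(κ * Λ)) ≤ frac P a := by
    rw [hexpn]
    refine le_trans ?_ hfr
    apply Real.rpow_le_rpow_of_exponent_le f1
    linarith
  -- r, L, D
  set r : ℕ := ⌈l ^ cc⌉₊ with hr
  have hlcc : 1 ≤ l ^ cc := Real.one_le_rpow f1 hcc0.le
  have hr1 : l ^ cc ≤ r := Nat.le_ceil _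
  have hr2 : (r : ℝ) ≤ 2 * l ^ cc := by
    have := (Nat.ceil_lt_add_one (show 0 ≤ l ^ cc by positivity)).le
    rw [← hr] at this
    linarith
  have hr0 : 1 ≤ r := by
    have h3 : (1 : ℝ) ≤ r := by linarith
    exact_mod_cast h3
  set L : ℕ := K / r with hL
  have hrL : r * L ≤ K := Nat.mul_div_le K r
  have hLlow : l ^ (κ - cc) / 8 ≤ L := by
    have h3 : (K : ℝ) / r < L + 1 := by
      rw [div_lt_iff₀ (by linarith : (0:ℝ) < r)]
      have h4 : K < (L + 1) * r := by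
        have g5 := Nat.div_add_mod K r
        have g6 := Nat.mod_lt K (show 0 < r by omega)
        calc K = r * (K / r) + K % r := g5.symm
          _ < r * (K / r) + r := by omega
          _ = (L + 1) * r := by rw [hL]; ring
      exact_mod_cast h4
    have h4 : l ^ (κ - cc) / 4 ≤ (K : ℝ) / r := by
      rw [div_le_div_iff₀ (by norm_num) (by linarith)]
      have h5 : l ^ (κ - cc) * r ≤ l ^ (κ - cc) * (2 * l ^ cc) := by gcongr
      have h6 : l ^ (κ - cc) * (2 * l ^ cc) = 2 * l ^ κ := by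
        rw [show l ^ (κ - cc) * (2 * l ^ cc) = 2 * (l ^ (κ - cc) * l ^ cc) by ring,
          ← Real.rpow_add hl0]
        ring_nf
      linarith
    have h5 : 1 ≤ l ^ (κ - cc) / 8 := by
      rw [le_div_iff₀ (by norm_num), one_mul, Real.rpow_sub hl0, le_div_iff₀ (by positivity)]
      exact f17
    linarith
  have hL1 : 1 ≤ L := by
    have h5 : 1 ≤ l ^ (κ - cc) / 8 := by
      rw [le_div_iff₀ (by norm_num), one_mul, Real.rpow_sub hl0, le_div_iff₀ (by positivity)]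
      exact f17
    have h6 : (1 : ℝ) ≤ L := by linarith
    exact_mod_cast h6
  have hLfr : 8 * Real.exp 1 ≤ L * frac P a := by
    have h3 : l ^ (κ - cc) / 8 * l ^ (-(κ - 3 * c / 4)) ≤ L * frac P a := by gcongr
    have h4 : l ^ (κ - cc) / 8 * l ^ (-(κ - 3 * c / 4)) = l ^ (3 * c / 4 - cc) / 8 := by
      rw [div_mul_eq_mul_div, ← Real.rpow_add hl0]
      ring_nf
    have h5 : l ^ (c / 2) ≤ l ^ (3 * c / 4 - cc) := by
      apply Real.rpow_le_rpow_of_exponent_le f1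
      linarith
    rw [h4] at h3
    linarith
  set D : ℕ := ⌈(24 + κ) * Λ + 24 * C0 + 1⌉₊ with hD
  have hD1 : (24 + κ) * Λ + 24 * C0 + 1 ≤ D := Nat.le_ceil _
  have hD2 : (D : ℝ) ≤ (24 + κ) * Λ + 24 * C0 + 2 := by
    have := (Nat.ceil_lt_add_one (show 0 ≤ (24 + κ) * Λ + 24 * C0 + 1 by positivity)).le
    rw [← hD] at this
    linarith
  have hε : Real.exp (-(D : ℝ)) * pr P (9 * Real.exp 1 - 1) ≤ frac P a / 2 := by
    have h3 := Real.exp_one_gt_d9
    have h4 := Real.exp_one_lt_d9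
    have h5 := pr_le P (9 * Real.exp 1 - 1) (by linarith)
    have h6 : Real.exp ((9 * Real.exp 1 - 1) * ∑ p ∈ P, 1 / (p : ℝ)) ≤
        Real.exp (24 * (Λ + C0)) := by
      rw [Real.exp_le_exp]
      have h7 : 9 * Real.exp 1 - 1 ≤ 24 := by linarith
      have h8 : 0 ≤ ∑ p ∈ P, 1 / (p : ℝ) := sum_nonneg (fun p _ => by positivity)
      gcongr
    have h9 : Real.exp (-(D : ℝ)) * Real.exp (24 * (Λ + C0)) ≤ Real.exp (-(κ * Λ)) / 2 := by
      rw [← Real.exp_add]
      have h10 : Real.exp (-(D : ℝ) + 24 * (Λ + C0)) ≤ Real.exp (-(κ * Λ) + -1) := by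
        rw [Real.exp_le_exp]; linarith
      have h11 : Real.exp (-1) ≤ 1 / 2 := by
        rw [Real.exp_neg, inv_le_comm₀ (Real.exp_pos _) (by norm_num)]
        norm_num
        linarith
      rw [Real.exp_add (-(κ * Λ)) (-1)] at h10
      have h12 : 0 < Real.exp (-(κ * Λ)) := Real.exp_pos _
      have h13 := mul_le_mul_of_nonneg_left h11 h12.le
      linarith
    calc Real.exp (-(D : ℝ)) * pr P (9 * Real.exp 1 - 1)
        ≤ Real.exp (-(D : ℝ)) * Real.exp (24 * (Λ + C0)) := by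
          have := h5.trans h6
          gcongr
      _ ≤ Real.exp (-(κ * Λ)) / 2 := h9
      _ ≤ frac P a / 2 := by linarith
  -- the main part
  have hB1 := fail_count P K x z (z0 + 1) D r L a hPP (by omega) (by omega) hL1 hrL hKx ha0 hfrp hε
    (B.filter (fun n => K < n)) (by
      intro n hn
      rw [mem_filter] at hn
      obtain ⟨hnB, hKn⟩ := hn
      obtain ⟨-, hnx, hm⟩ := hB n hnB
      refine ⟨hKn, hnx, fun k hk => ?_⟩
      by_contra hcon
      push Not at hcon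
      rw [mem_Icc] at hk
      have h3 := hm (n - k) (by rw [mem_Ico]; omega)
      have h4 : (n - k) ≠ 0 := by omega
      have h5 := two_pow_le_card_divisors (n - k) h4
      have h6 := om_le P (n - k) hPpr h4
      have h7 : (2 : ℝ) ^ a ≤ ((n - k).divisors.card : ℝ) := by
        have : 2 ^ a ≤ (n - k).divisors.card :=
          (Nat.pow_le_pow_right (by norm_num) (hcon.trans h6)).trans h5
        exact_mod_cast this
      have h8 : l ^ u2 ≤ (2 : ℝ) ^ a := by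
        rw [Real.rpow_def_of_pos hl0, ← Real.rpow_natCast, Real.rpow_def_of_pos (by norm_num),
          Real.exp_le_exp, hu2]
        have h9 : (y - h) * Λ * Real.log 2 ≤ (a : ℝ) * Real.log 2 := by
          gcongr
        calc Λ * ((y - h) * Real.log 2) = (y - h) * Λ * Real.log 2 := by ring
          _ ≤ (a : ℝ) * Real.log 2 := h9
          _ = Real.log 2 * (a : ℝ) := mul_comm _ _
      rw [Nat.cast_sub (by omega)] at h3
      have h9 : (k : ℝ) ≤ l ^ κ := by
        have : (k : ℝ) ≤ K := by exact_mod_cast hk.2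
        linarith
      have h10 : l ^ κ ≤ l ^ u := Real.rpow_le_rpow_of_exponent_le f1 hκu.le
      have h11 : 0 < l ^ u := by positivity
      linarith)
  have hW1 : (r : ℝ) * (2 * (κ + 9) * Λ + 2 * (3 + 9 * C0)) +
      4 * ((24 + κ) * Λ + 24 * C0 + 2) * r * l ^ (1 - η) ≤ l / 2 := by
    rw [← hA1, ← hA2]
    have h3 : l ^ cc ≤ l ^ (1 - η + cc) := by
      apply Real.rpow_le_rpow_of_exponent_le f1
      linarith
    have h4 : (r : ℝ) * (A1 * Λ + A2) ≤ (2 * l ^ (1 - η + cc)) * (A1 * Λ + A2) := by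
      have : (r : ℝ) ≤ 2 * l ^ (1 - η + cc) := by linarith
      gcongr
    have h5 : 4 * ((24 + κ) * Λ + 24 * C0 + 2) * r * l ^ (1 - η) ≤
        8 * ((24 + κ) * Λ + (24 * C0 + 2)) * l ^ (1 - η + cc) := by
      calc 4 * ((24 + κ) * Λ + 24 * C0 + 2) * r * l ^ (1 - η)
          ≤ 4 * ((24 + κ) * Λ + 24 * C0 + 2) * (2 * l ^ cc) * l ^ (1 - η) := by gcongr
        _ = 8 * ((24 + κ) * Λ + (24 * C0 + 2)) * (l ^ (1 - η) * l ^ cc) := by ring
        _ = _ := by rw [← Real.rpow_add hl0]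
    have h6 : (2 * l ^ (1 - η + cc)) * (A1 * Λ + A2) +
        8 * ((24 + κ) * Λ + (24 * C0 + 2)) * l ^ (1 - η + cc) =
        ((2 * A1 + 8 * (24 + κ)) * Λ + (2 * A2 + 8 * (24 * C0 + 2))) * l ^ (1 - η + cc) := by ring
    linarith
  have hW2 : (r : ℝ) * ((2 * (κ + 9) + 1) * Λ + (2 * (3 + 9 * C0) + C0 + 8)) - l ^ (η / 3) ≤
      -(l ^ (η / 3) / 2) := by
    rw [← hA1, ← hA2]
    have h4 : (r : ℝ) * ((A1 + 1) * Λ + (A2 + C0 + 8)) ≤
        (2 * l ^ cc) * ((A1 + 1) * Λ + (A2 + C0 + 8)) := by gcongr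
    have h5 : (2 * l ^ cc) * ((A1 + 1) * Λ + (A2 + C0 + 8)) =
        (2 * (A1 + 1) * Λ + 2 * (A2 + C0 + 8)) * l ^ cc := by ring
    linarith
  have hnum := numerics P x z (z0 + 1) D r L (frac P a) κ η C0 l Λ (l / 2) (l ^ (η / 3) / 2)
    hxe hfrp hΛ0 hC00 hs2 hfr2 hLfr hr0 hzle (by positivity) hP0le hD2 hW1 hW2
  have hB2 : ((B.filter (fun n => ¬ K < n)).card : ℝ) ≤ Real.exp (l / 2) := by
    have h3 : (B.filter (fun n => ¬ K < n)).card ≤ (Icc 1 K).card := by
      apply card_le_card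
      intro n hn
      rw [mem_filter] at hn
      rw [mem_Icc]
      have := (hB n hn.1).1
      omega
    rw [Nat.card_Icc, Nat.add_sub_cancel] at h3
    have h4 : ((B.filter (fun n => ¬ K < n)).card : ℝ) ≤ K := by exact_mod_cast h3
    linarith
  have hcard : (B.card : ℝ) = ((B.filter (fun n => K < n)).card : ℝ) +
      ((B.filter (fun n => ¬ K < n)).card : ℝ) := by
    rw [← Nat.cast_add, ← Finset.card_filter_add_card_filter_not (fun n => K < n)]
  rw [hcard]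
  -- final numerics
  have h4e : (4 : ℝ) ≤ Real.exp 2 := by
    have h6 : Real.exp 2 = Real.exp 1 * Real.exp 1 := by rw [← Real.exp_add]; norm_num
    have h7 : (2 : ℝ) ≤ Real.exp 1 := by
      have := Real.exp_one_gt_d9
      linarith
    calc (4 : ℝ) = 2 * 2 := by norm_num
      _ ≤ Real.exp 1 * Real.exp 1 := by gcongr
      _ = Real.exp 2 := h6.symm
  have key : ∀ w : ℝ, l ^ (cc / 2) + 2 ≤ w → 4 * Real.exp (-w) ≤ Real.exp (-(l ^ (cc / 2))) := by
    intro w hw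
    calc 4 * Real.exp (-w) ≤ Real.exp 2 * Real.exp (-w) := by gcongr
      _ = Real.exp (2 + -w) := by rw [Real.exp_add]
      _ ≤ _ := by rw [Real.exp_le_exp]; linarith
  have k1 := key r (by linarith)
  have k2 := key (l / 2) (by linarith)
  have k3 := key (l ^ (η / 3) / 2) (by linarith)
  have hE : Real.exp (l / 2) = x * Real.exp (-(l / 2)) := by
    rw [hxe, ← Real.exp_add]; ring_nf
  have hfin : x * Real.exp (-(r : ℝ)) + (Real.exp (l / 2) + x * Real.exp (-(l ^ (η / 3) / 2))) +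
      Real.exp (l / 2) ≤ x * Real.exp (-(l ^ (cc / 2))) := by
    rw [hE]
    have h3 : x * (Real.exp (-(r : ℝ)) + 2 * Real.exp (-(l / 2)) +
        Real.exp (-(l ^ (η / 3) / 2))) ≤ x * Real.exp (-(l ^ (cc / 2))) := by
      have h5 : Real.exp (-(r : ℝ)) + 2 * Real.exp (-(l / 2)) +
        Real.exp (-(l ^ (η / 3) / 2)) ≤ Real.exp (-(l ^ (cc / 2))) := by linarith
      gcongr
    linarith
  linarith

end Pool.Agent.helper43.NS
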